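import Mathlib

set_option autoImplicit false
set_option linter.all false

/-! Numerical inequality, cell by cell. -/

namespace Pool.Agent.Helper824_xs

/-- tangent line to `X * Y = 128` -/
lemma tangent {X Y P Q : ℚ} (hX : 0 ≤ X) (hY : 0 ≤ Y) (h : 128 < X * Y) (hP : 0 < P) (hQ : 0 < Q)
    (hPQ : P * Q = 128) : 256 < X * Q + Y * P := by
  have h1 : (256 : ℚ) ^ 2 < (X * Q + Y * P) ^ 2 := by
    have e : (X * Q + Y * P) ^ 2 = (X * Q - Y * P) ^ 2 + 4 * (X * Y) * (P * Q) := by ring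
    rw [e, hPQ]
    nlinarith [sq_nonneg (X * Q - Y * P)]
  have h2 : 0 ≤ X * Q + Y * P := by positivity
  exact lt_of_pow_lt_pow_left₀ 2 h2 h1

lemma cell_8_8 (x y E : ℚ) (hx : 0 ≤ x) (hx1 : x ≤ 1) (hy : 0 ≤ y) (hy1 : y ≤ 1) (hE : 0 ≤ E)
    (hX : 0 ≤ 16 - x - E) (hY : 0 ≤ 16 - y - E) (h : 128 < (16 - x - E) * (16 - y - E)) :
    ((4913/125 : ℚ) + (12/5 : ℚ) * x) * ((4913/125 : ℚ) + (12/5 : ℚ) * y) + E * (35831808/78125 : ℚ) < (410338673/78125 : ℚ) := by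
  have hl := tangent hX hY h (P := (45/4 : ℚ)) (Q := (512/45 : ℚ)) (by norm_num) (by norm_num) (by norm_num)
  have hl' : 0 < (16 - x - E) * (512/45 : ℚ) + (16 - y - E) * (45/4 : ℚ) - 256 := by linarith
  nlinarith [mul_nonneg hx hl'.le, mul_nonneg hy hl'.le, mul_nonneg hx hE, mul_nonneg hy hE,
    mul_nonneg hx (sub_nonneg.2 hy1), mul_nonneg hy (sub_nonneg.2 hx1),
    mul_nonneg (sub_nonneg.2 hx1) (sub_nonneg.2 hy1), mul_nonneg hE hl'.le,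
    mul_nonneg hE (sub_nonneg.2 hx1), mul_nonneg hE (sub_nonneg.2 hy1)]

lemma cell_8_9 (x y E : ℚ) (hx : 0 ≤ x) (hx1 : x ≤ 1) (hy : 0 ≤ y) (hy1 : y ≤ 1) (hE : 0 ≤ E)
    (hX : 0 ≤ 16 - x - E) (hY : 0 ≤ 15 - y - E) (h : 128 < (16 - x - E) * (15 - y - E)) :
    ((4913/125 : ℚ) + (12/5 : ℚ) * x) * ((5213/125 : ℚ) + (144/25 : ℚ) * y) + E * (35831808/78125 : ℚ) < (410338673/78125 : ℚ) := by
  have hl := tangent hX hY h (P := (47/4 : ℚ)) (Q := (512/47 : ℚ)) (by norm_num) (by norm_num) (by norm_num)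
  have hl' : 0 < (16 - x - E) * (512/47 : ℚ) + (15 - y - E) * (47/4 : ℚ) - 256 := by linarith
  nlinarith [mul_nonneg hx hl'.le, mul_nonneg hy hl'.le, mul_nonneg hx hE, mul_nonneg hy hE,
    mul_nonneg hx (sub_nonneg.2 hy1), mul_nonneg hy (sub_nonneg.2 hx1),
    mul_nonneg (sub_nonneg.2 hx1) (sub_nonneg.2 hy1), mul_nonneg hE hl'.le,
    mul_nonneg hE (sub_nonneg.2 hx1), mul_nonneg hE (sub_nonneg.2 hy1)]

lemma cell_8_10 (x y E : ℚ) (hx : 0 ≤ x) (hx1 : x ≤ 1) (hy : 0 ≤ y) (hy1 : y ≤ 1) (hE : 0 ≤ E)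
    (hX : 0 ≤ 16 - x - E) (hY : 0 ≤ 14 - y - E) (h : 128 < (16 - x - E) * (14 - y - E)) :
    ((4913/125 : ℚ) + (12/5 : ℚ) * x) * ((5933/125 : ℚ) + (144/25 : ℚ) * y) + E * (35831808/78125 : ℚ) < (410338673/78125 : ℚ) := by
  have hl := tangent hX hY h (P := (49/4 : ℚ)) (Q := (512/49 : ℚ)) (by norm_num) (by norm_num) (by norm_num)
  have hl' : 0 < (16 - x - E) * (512/49 : ℚ) + (14 - y - E) * (49/4 : ℚ) - 256 := by linarith
  nlinarith [mul_nonneg hx hl'.le, mul_nonneg hy hl'.le, mul_nonneg hx hE, mul_nonneg hy hE,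
    mul_nonneg hx (sub_nonneg.2 hy1), mul_nonneg hy (sub_nonneg.2 hx1),
    mul_nonneg (sub_nonneg.2 hx1) (sub_nonneg.2 hy1), mul_nonneg hE hl'.le,
    mul_nonneg hE (sub_nonneg.2 hx1), mul_nonneg hE (sub_nonneg.2 hy1)]

lemma cell_8_11 (x y E : ℚ) (hx : 0 ≤ x) (hx1 : x ≤ 1) (hy : 0 ≤ y) (hy1 : y ≤ 1) (hE : 0 ≤ E)
    (hX : 0 ≤ 16 - x - E) (hY : 0 ≤ 13 - y - E) (h : 128 < (16 - x - E) * (13 - y - E)) :
    ((4913/125 : ℚ) + (12/5 : ℚ) * x) * ((6653/125 : ℚ) + (1728/125 : ℚ) * y) + E * (35831808/78125 : ℚ) < (410338673/78125 : ℚ) := by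
  have hl := tangent hX hY h (P := (27/2 : ℚ)) (Q := (256/27 : ℚ)) (by norm_num) (by norm_num) (by norm_num)
  have hl' : 0 < (16 - x - E) * (256/27 : ℚ) + (13 - y - E) * (27/2 : ℚ) - 256 := by linarith
  nlinarith [mul_nonneg hx hl'.le, mul_nonneg hy hl'.le, mul_nonneg hx hE, mul_nonneg hy hE,
    mul_nonneg hx (sub_nonneg.2 hy1), mul_nonneg hy (sub_nonneg.2 hx1),
    mul_nonneg (sub_nonneg.2 hx1) (sub_nonneg.2 hy1), mul_nonneg hE hl'.le,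
    mul_nonneg hE (sub_nonneg.2 hx1), mul_nonneg hE (sub_nonneg.2 hy1)]

lemma cell_8_12 (x y E : ℚ) (hx : 0 ≤ x) (hx1 : x ≤ 1) (hy : 0 ≤ y) (hy1 : y ≤ 1) (hE : 0 ≤ E)
    (hX : 0 ≤ 16 - x - E) (hY : 0 ≤ 12 - y - E) (h : 128 < (16 - x - E) * (12 - y - E)) :
    ((4913/125 : ℚ) + (12/5 : ℚ) * x) * ((8381/125 : ℚ) + (144/25 : ℚ) * y) + E * (35831808/78125 : ℚ) < (410338673/78125 : ℚ) := by
  have hl := tangent hX hY h (P := (27/2 : ℚ)) (Q := (256/27 : ℚ)) (by norm_num) (by norm_num) (by norm_num)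
  have hl' : 0 < (16 - x - E) * (256/27 : ℚ) + (12 - y - E) * (27/2 : ℚ) - 256 := by linarith
  nlinarith [mul_nonneg hx hl'.le, mul_nonneg hy hl'.le, mul_nonneg hx hE, mul_nonneg hy hE,
    mul_nonneg hx (sub_nonneg.2 hy1), mul_nonneg hy (sub_nonneg.2 hx1),
    mul_nonneg (sub_nonneg.2 hx1) (sub_nonneg.2 hy1), mul_nonneg hE hl'.le,
    mul_nonneg hE (sub_nonneg.2 hx1), mul_nonneg hE (sub_nonneg.2 hy1)]

lemma cell_8_13 (x y E : ℚ) (hx : 0 ≤ x) (hx1 : x ≤ 1) (hy : 0 ≤ y) (hy1 : y ≤ 1) (hE : 0 ≤ E)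
    (hX : 0 ≤ 16 - x - E) (hY : 0 ≤ 11 - y - E) (h : 128 < (16 - x - E) * (11 - y - E)) :
    ((4913/125 : ℚ) + (12/5 : ℚ) * x) * ((9101/125 : ℚ) + (1728/125 : ℚ) * y) + E * (35831808/78125 : ℚ) < (410338673/78125 : ℚ) := by
  have hl := tangent hX hY h (P := (14 : ℚ)) (Q := (64/7 : ℚ)) (by norm_num) (by norm_num) (by norm_num)
  have hl' : 0 < (16 - x - E) * (64/7 : ℚ) + (11 - y - E) * (14 : ℚ) - 256 := by linarith
  nlinarith [mul_nonneg hx hl'.le, mul_nonneg hy hl'.le, mul_nonneg hx hE, mul_nonneg hy hE,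
    mul_nonneg hx (sub_nonneg.2 hy1), mul_nonneg hy (sub_nonneg.2 hx1),
    mul_nonneg (sub_nonneg.2 hx1) (sub_nonneg.2 hy1), mul_nonneg hE hl'.le,
    mul_nonneg hE (sub_nonneg.2 hx1), mul_nonneg hE (sub_nonneg.2 hy1)]

lemma cell_8_14 (x y E : ℚ) (hx : 0 ≤ x) (hx1 : x ≤ 1) (hy : 0 ≤ y) (hy1 : y ≤ 1) (hE : 0 ≤ E)
    (hX : 0 ≤ 16 - x - E) (hY : 0 ≤ 10 - y - E) (h : 128 < (16 - x - E) * (10 - y - E)) :
    ((4913/125 : ℚ) + (12/5 : ℚ) * x) * ((10829/125 : ℚ) + (1728/125 : ℚ) * y) + E * (35831808/78125 : ℚ) < (410338673/78125 : ℚ) := by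
  have hl := tangent hX hY h (P := (59/4 : ℚ)) (Q := (512/59 : ℚ)) (by norm_num) (by norm_num) (by norm_num)
  have hl' : 0 < (16 - x - E) * (512/59 : ℚ) + (10 - y - E) * (59/4 : ℚ) - 256 := by linarith
  nlinarith [mul_nonneg hx hl'.le, mul_nonneg hy hl'.le, mul_nonneg hx hE, mul_nonneg hy hE,
    mul_nonneg hx (sub_nonneg.2 hy1), mul_nonneg hy (sub_nonneg.2 hx1),
    mul_nonneg (sub_nonneg.2 hx1) (sub_nonneg.2 hy1), mul_nonneg hE hl'.le,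
    mul_nonneg hE (sub_nonneg.2 hx1), mul_nonneg hE (sub_nonneg.2 hy1)]

lemma cell_8_15 (x y E : ℚ) (hx : 0 ≤ x) (hx1 : x ≤ 1) (hy : 0 ≤ y) (hy1 : y ≤ 1) (hE : 0 ≤ E)
    (hX : 0 ≤ 16 - x - E) (hY : 0 ≤ 9 - y - E) (h : 128 < (16 - x - E) * (9 - y - E)) :
    ((4913/125 : ℚ) + (12/5 : ℚ) * x) * ((12557/125 : ℚ) + (20736/625 : ℚ) * y) + E * (35831808/78125 : ℚ) < (410338673/78125 : ℚ) := by
  have hl := tangent hX hY h (P := (16 : ℚ)) (Q := (8 : ℚ)) (by norm_num) (by norm_num) (by norm_num)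
  have hl' : 0 < (16 - x - E) * (8 : ℚ) + (9 - y - E) * (16 : ℚ) - 256 := by linarith
  nlinarith [mul_nonneg hx hl'.le, mul_nonneg hy hl'.le, mul_nonneg hx hE, mul_nonneg hy hE,
    mul_nonneg hx (sub_nonneg.2 hy1), mul_nonneg hy (sub_nonneg.2 hx1),
    mul_nonneg (sub_nonneg.2 hx1) (sub_nonneg.2 hy1), mul_nonneg hE hl'.le,
    mul_nonneg hE (sub_nonneg.2 hx1), mul_nonneg hE (sub_nonneg.2 hy1)]

lemma cell_9_9 (x y E : ℚ) (hx : 0 ≤ x) (hx1 : x ≤ 1) (hy : 0 ≤ y) (hy1 : y ≤ 1) (hE : 0 ≤ E)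
    (hX : 0 ≤ 15 - x - E) (hY : 0 ≤ 15 - y - E) (h : 128 < (15 - x - E) * (15 - y - E)) :
    ((5213/125 : ℚ) + (144/25 : ℚ) * x) * ((5213/125 : ℚ) + (144/25 : ℚ) * y) + E * (35831808/78125 : ℚ) < (410338673/78125 : ℚ) := by
  have hl := tangent hX hY h (P := (45/4 : ℚ)) (Q := (512/45 : ℚ)) (by norm_num) (by norm_num) (by norm_num)
  have hl' : 0 < (15 - x - E) * (512/45 : ℚ) + (15 - y - E) * (45/4 : ℚ) - 256 := by linarith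
  nlinarith [mul_nonneg hx hl'.le, mul_nonneg hy hl'.le, mul_nonneg hx hE, mul_nonneg hy hE,
    mul_nonneg hx (sub_nonneg.2 hy1), mul_nonneg hy (sub_nonneg.2 hx1),
    mul_nonneg (sub_nonneg.2 hx1) (sub_nonneg.2 hy1), mul_nonneg hE hl'.le,
    mul_nonneg hE (sub_nonneg.2 hx1), mul_nonneg hE (sub_nonneg.2 hy1)]

lemma cell_9_10 (x y E : ℚ) (hx : 0 ≤ x) (hx1 : x ≤ 1) (hy : 0 ≤ y) (hy1 : y ≤ 1) (hE : 0 ≤ E)
    (hX : 0 ≤ 15 - x - E) (hY : 0 ≤ 14 - y - E) (h : 128 < (15 - x - E) * (14 - y - E)) :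
    ((5213/125 : ℚ) + (144/25 : ℚ) * x) * ((5933/125 : ℚ) + (144/25 : ℚ) * y) + E * (35831808/78125 : ℚ) < (410338673/78125 : ℚ) := by
  have hl := tangent hX hY h (P := (47/4 : ℚ)) (Q := (512/47 : ℚ)) (by norm_num) (by norm_num) (by norm_num)
  have hl' : 0 < (15 - x - E) * (512/47 : ℚ) + (14 - y - E) * (47/4 : ℚ) - 256 := by linarith
  nlinarith [mul_nonneg hx hl'.le, mul_nonneg hy hl'.le, mul_nonneg hx hE, mul_nonneg hy hE,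
    mul_nonneg hx (sub_nonneg.2 hy1), mul_nonneg hy (sub_nonneg.2 hx1),
    mul_nonneg (sub_nonneg.2 hx1) (sub_nonneg.2 hy1), mul_nonneg hE hl'.le,
    mul_nonneg hE (sub_nonneg.2 hx1), mul_nonneg hE (sub_nonneg.2 hy1)]

lemma cell_9_11 (x y E : ℚ) (hx : 0 ≤ x) (hx1 : x ≤ 1) (hy : 0 ≤ y) (hy1 : y ≤ 1) (hE : 0 ≤ E)
    (hX : 0 ≤ 15 - x - E) (hY : 0 ≤ 13 - y - E) (h : 128 < (15 - x - E) * (13 - y - E)) :
    ((5213/125 : ℚ) + (144/25 : ℚ) * x) * ((6653/125 : ℚ) + (1728/125 : ℚ) * y) + E * (35831808/78125 : ℚ) < (410338673/78125 : ℚ) := by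
  have hl := tangent hX hY h (P := (49/4 : ℚ)) (Q := (512/49 : ℚ)) (by norm_num) (by norm_num) (by norm_num)
  have hl' : 0 < (15 - x - E) * (512/49 : ℚ) + (13 - y - E) * (49/4 : ℚ) - 256 := by linarith
  nlinarith [mul_nonneg hx hl'.le, mul_nonneg hy hl'.le, mul_nonneg hx hE, mul_nonneg hy hE,
    mul_nonneg hx (sub_nonneg.2 hy1), mul_nonneg hy (sub_nonneg.2 hx1),
    mul_nonneg (sub_nonneg.2 hx1) (sub_nonneg.2 hy1), mul_nonneg hE hl'.le,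
    mul_nonneg hE (sub_nonneg.2 hx1), mul_nonneg hE (sub_nonneg.2 hy1)]

lemma cell_9_12 (x y E : ℚ) (hx : 0 ≤ x) (hx1 : x ≤ 1) (hy : 0 ≤ y) (hy1 : y ≤ 1) (hE : 0 ≤ E)
    (hX : 0 ≤ 15 - x - E) (hY : 0 ≤ 12 - y - E) (h : 128 < (15 - x - E) * (12 - y - E)) :
    ((5213/125 : ℚ) + (144/25 : ℚ) * x) * ((8381/125 : ℚ) + (144/25 : ℚ) * y) + E * (35831808/78125 : ℚ) < (410338673/78125 : ℚ) := by
  have hl := tangent hX hY h (P := (13 : ℚ)) (Q := (128/13 : ℚ)) (by norm_num) (by norm_num) (by norm_num)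
  have hl' : 0 < (15 - x - E) * (128/13 : ℚ) + (12 - y - E) * (13 : ℚ) - 256 := by linarith
  nlinarith [mul_nonneg hx hl'.le, mul_nonneg hy hl'.le, mul_nonneg hx hE, mul_nonneg hy hE,
    mul_nonneg hx (sub_nonneg.2 hy1), mul_nonneg hy (sub_nonneg.2 hx1),
    mul_nonneg (sub_nonneg.2 hx1) (sub_nonneg.2 hy1), mul_nonneg hE hl'.le,
    mul_nonneg hE (sub_nonneg.2 hx1), mul_nonneg hE (sub_nonneg.2 hy1)]

lemma cell_9_13 (x y E : ℚ) (hx : 0 ≤ x) (hx1 : x ≤ 1) (hy : 0 ≤ y) (hy1 : y ≤ 1) (hE : 0 ≤ E)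
    (hX : 0 ≤ 15 - x - E) (hY : 0 ≤ 11 - y - E) (h : 128 < (15 - x - E) * (11 - y - E)) :
    ((5213/125 : ℚ) + (144/25 : ℚ) * x) * ((9101/125 : ℚ) + (1728/125 : ℚ) * y) + E * (35831808/78125 : ℚ) < (410338673/78125 : ℚ) := by
  have hl := tangent hX hY h (P := (27/2 : ℚ)) (Q := (256/27 : ℚ)) (by norm_num) (by norm_num) (by norm_num)
  have hl' : 0 < (15 - x - E) * (256/27 : ℚ) + (11 - y - E) * (27/2 : ℚ) - 256 := by linarith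
  nlinarith [mul_nonneg hx hl'.le, mul_nonneg hy hl'.le, mul_nonneg hx hE, mul_nonneg hy hE,
    mul_nonneg hx (sub_nonneg.2 hy1), mul_nonneg hy (sub_nonneg.2 hx1),
    mul_nonneg (sub_nonneg.2 hx1) (sub_nonneg.2 hy1), mul_nonneg hE hl'.le,
    mul_nonneg hE (sub_nonneg.2 hx1), mul_nonneg hE (sub_nonneg.2 hy1)]

lemma cell_9_14 (x y E : ℚ) (hx : 0 ≤ x) (hx1 : x ≤ 1) (hy : 0 ≤ y) (hy1 : y ≤ 1) (hE : 0 ≤ E)
    (hX : 0 ≤ 15 - x - E) (hY : 0 ≤ 10 - y - E) (h : 128 < (15 - x - E) * (10 - y - E)) :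
    ((5213/125 : ℚ) + (144/25 : ℚ) * x) * ((10829/125 : ℚ) + (1728/125 : ℚ) * y) + E * (35831808/78125 : ℚ) < (410338673/78125 : ℚ) := by
  have hl := tangent hX hY h (P := (14 : ℚ)) (Q := (64/7 : ℚ)) (by norm_num) (by norm_num) (by norm_num)
  have hl' : 0 < (15 - x - E) * (64/7 : ℚ) + (10 - y - E) * (14 : ℚ) - 256 := by linarith
  nlinarith [mul_nonneg hx hl'.le, mul_nonneg hy hl'.le, mul_nonneg hx hE, mul_nonneg hy hE,
    mul_nonneg hx (sub_nonneg.2 hy1), mul_nonneg hy (sub_nonneg.2 hx1),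
    mul_nonneg (sub_nonneg.2 hx1) (sub_nonneg.2 hy1), mul_nonneg hE hl'.le,
    mul_nonneg hE (sub_nonneg.2 hx1), mul_nonneg hE (sub_nonneg.2 hy1)]

lemma cell_9_15 (x y E : ℚ) (hx : 0 ≤ x) (hx1 : x ≤ 1) (hy : 0 ≤ y) (hy1 : y ≤ 1) (hE : 0 ≤ E)
    (hX : 0 ≤ 15 - x - E) (hY : 0 ≤ 9 - y - E) (h : 128 < (15 - x - E) * (9 - y - E)) :
    ((5213/125 : ℚ) + (144/25 : ℚ) * x) * ((12557/125 : ℚ) + (20736/625 : ℚ) * y) + E * (35831808/78125 : ℚ) < (410338673/78125 : ℚ) := by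
  have hl := tangent hX hY h (P := (15 : ℚ)) (Q := (128/15 : ℚ)) (by norm_num) (by norm_num) (by norm_num)
  have hl' : 0 < (15 - x - E) * (128/15 : ℚ) + (9 - y - E) * (15 : ℚ) - 256 := by linarith
  nlinarith [mul_nonneg hx hl'.le, mul_nonneg hy hl'.le, mul_nonneg hx hE, mul_nonneg hy hE,
    mul_nonneg hx (sub_nonneg.2 hy1), mul_nonneg hy (sub_nonneg.2 hx1),
    mul_nonneg (sub_nonneg.2 hx1) (sub_nonneg.2 hy1), mul_nonneg hE hl'.le,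
    mul_nonneg hE (sub_nonneg.2 hx1), mul_nonneg hE (sub_nonneg.2 hy1)]

lemma cell_10_10 (x y E : ℚ) (hx : 0 ≤ x) (hx1 : x ≤ 1) (hy : 0 ≤ y) (hy1 : y ≤ 1) (hE : 0 ≤ E)
    (hX : 0 ≤ 14 - x - E) (hY : 0 ≤ 14 - y - E) (h : 128 < (14 - x - E) * (14 - y - E)) :
    ((5933/125 : ℚ) + (144/25 : ℚ) * x) * ((5933/125 : ℚ) + (144/25 : ℚ) * y) + E * (35831808/78125 : ℚ) < (410338673/78125 : ℚ) := by
  have hl := tangent hX hY h (P := (45/4 : ℚ)) (Q := (512/45 : ℚ)) (by norm_num) (by norm_num) (by norm_num)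
  have hl' : 0 < (14 - x - E) * (512/45 : ℚ) + (14 - y - E) * (45/4 : ℚ) - 256 := by linarith
  nlinarith [mul_nonneg hx hl'.le, mul_nonneg hy hl'.le, mul_nonneg hx hE, mul_nonneg hy hE,
    mul_nonneg hx (sub_nonneg.2 hy1), mul_nonneg hy (sub_nonneg.2 hx1),
    mul_nonneg (sub_nonneg.2 hx1) (sub_nonneg.2 hy1), mul_nonneg hE hl'.le,
    mul_nonneg hE (sub_nonneg.2 hx1), mul_nonneg hE (sub_nonneg.2 hy1)]

lemma cell_10_11 (x y E : ℚ) (hx : 0 ≤ x) (hx1 : x ≤ 1) (hy : 0 ≤ y) (hy1 : y ≤ 1) (hE : 0 ≤ E)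
    (hX : 0 ≤ 14 - x - E) (hY : 0 ≤ 13 - y - E) (h : 128 < (14 - x - E) * (13 - y - E)) :
    ((5933/125 : ℚ) + (144/25 : ℚ) * x) * ((6653/125 : ℚ) + (1728/125 : ℚ) * y) + E * (35831808/78125 : ℚ) < (410338673/78125 : ℚ) := by
  have hl := tangent hX hY h (P := (47/4 : ℚ)) (Q := (512/47 : ℚ)) (by norm_num) (by norm_num) (by norm_num)
  have hl' : 0 < (14 - x - E) * (512/47 : ℚ) + (13 - y - E) * (47/4 : ℚ) - 256 := by linarith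
  nlinarith [mul_nonneg hx hl'.le, mul_nonneg hy hl'.le, mul_nonneg hx hE, mul_nonneg hy hE,
    mul_nonneg hx (sub_nonneg.2 hy1), mul_nonneg hy (sub_nonneg.2 hx1),
    mul_nonneg (sub_nonneg.2 hx1) (sub_nonneg.2 hy1), mul_nonneg hE hl'.le,
    mul_nonneg hE (sub_nonneg.2 hx1), mul_nonneg hE (sub_nonneg.2 hy1)]

lemma cell_10_12 (x y E : ℚ) (hx : 0 ≤ x) (hx1 : x ≤ 1) (hy : 0 ≤ y) (hy1 : y ≤ 1) (hE : 0 ≤ E)
    (hX : 0 ≤ 14 - x - E) (hY : 0 ≤ 12 - y - E) (h : 128 < (14 - x - E) * (12 - y - E)) :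
    ((5933/125 : ℚ) + (144/25 : ℚ) * x) * ((8381/125 : ℚ) + (144/25 : ℚ) * y) + E * (35831808/78125 : ℚ) < (410338673/78125 : ℚ) := by
  have hl := tangent hX hY h (P := (49/4 : ℚ)) (Q := (512/49 : ℚ)) (by norm_num) (by norm_num) (by norm_num)
  have hl' : 0 < (14 - x - E) * (512/49 : ℚ) + (12 - y - E) * (49/4 : ℚ) - 256 := by linarith
  nlinarith [mul_nonneg hx hl'.le, mul_nonneg hy hl'.le, mul_nonneg hx hE, mul_nonneg hy hE,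
    mul_nonneg hx (sub_nonneg.2 hy1), mul_nonneg hy (sub_nonneg.2 hx1),
    mul_nonneg (sub_nonneg.2 hx1) (sub_nonneg.2 hy1), mul_nonneg hE hl'.le,
    mul_nonneg hE (sub_nonneg.2 hx1), mul_nonneg hE (sub_nonneg.2 hy1)]

lemma cell_10_13 (x y E : ℚ) (hx : 0 ≤ x) (hx1 : x ≤ 1) (hy : 0 ≤ y) (hy1 : y ≤ 1) (hE : 0 ≤ E)
    (hX : 0 ≤ 14 - x - E) (hY : 0 ≤ 11 - y - E) (h : 128 < (14 - x - E) * (11 - y - E)) :
    ((5933/125 : ℚ) + (144/25 : ℚ) * x) * ((9101/125 : ℚ) + (1728/125 : ℚ) * y) + E * (35831808/78125 : ℚ) < (410338673/78125 : ℚ) := by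
  have hl := tangent hX hY h (P := (13 : ℚ)) (Q := (128/13 : ℚ)) (by norm_num) (by norm_num) (by norm_num)
  have hl' : 0 < (14 - x - E) * (128/13 : ℚ) + (11 - y - E) * (13 : ℚ) - 256 := by linarith
  nlinarith [mul_nonneg hx hl'.le, mul_nonneg hy hl'.le, mul_nonneg hx hE, mul_nonneg hy hE,
    mul_nonneg hx (sub_nonneg.2 hy1), mul_nonneg hy (sub_nonneg.2 hx1),
    mul_nonneg (sub_nonneg.2 hx1) (sub_nonneg.2 hy1), mul_nonneg hE hl'.le,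
    mul_nonneg hE (sub_nonneg.2 hx1), mul_nonneg hE (sub_nonneg.2 hy1)]

lemma cell_10_14 (x y E : ℚ) (hx : 0 ≤ x) (hx1 : x ≤ 1) (hy : 0 ≤ y) (hy1 : y ≤ 1) (hE : 0 ≤ E)
    (hX : 0 ≤ 14 - x - E) (hY : 0 ≤ 10 - y - E) (h : 128 < (14 - x - E) * (10 - y - E)) :
    ((5933/125 : ℚ) + (144/25 : ℚ) * x) * ((10829/125 : ℚ) + (1728/125 : ℚ) * y) + E * (35831808/78125 : ℚ) < (410338673/78125 : ℚ) := by
  have hl := tangent hX hY h (P := (53/4 : ℚ)) (Q := (512/53 : ℚ)) (by norm_num) (by norm_num) (by norm_num)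
  have hl' : 0 < (14 - x - E) * (512/53 : ℚ) + (10 - y - E) * (53/4 : ℚ) - 256 := by linarith
  nlinarith [mul_nonneg hx hl'.le, mul_nonneg hy hl'.le, mul_nonneg hx hE, mul_nonneg hy hE,
    mul_nonneg hx (sub_nonneg.2 hy1), mul_nonneg hy (sub_nonneg.2 hx1),
    mul_nonneg (sub_nonneg.2 hx1) (sub_nonneg.2 hy1), mul_nonneg hE hl'.le,
    mul_nonneg hE (sub_nonneg.2 hx1), mul_nonneg hE (sub_nonneg.2 hy1)]

lemma cell_11_11 (x y E : ℚ) (hx : 0 ≤ x) (hx1 : x ≤ 1) (hy : 0 ≤ y) (hy1 : y ≤ 1) (hE : 0 ≤ E)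
    (hX : 0 ≤ 13 - x - E) (hY : 0 ≤ 13 - y - E) (h : 128 < (13 - x - E) * (13 - y - E)) :
    ((6653/125 : ℚ) + (1728/125 : ℚ) * x) * ((6653/125 : ℚ) + (1728/125 : ℚ) * y) + E * (35831808/78125 : ℚ) < (410338673/78125 : ℚ) := by
  have hl := tangent hX hY h (P := (45/4 : ℚ)) (Q := (512/45 : ℚ)) (by norm_num) (by norm_num) (by norm_num)
  have hl' : 0 < (13 - x - E) * (512/45 : ℚ) + (13 - y - E) * (45/4 : ℚ) - 256 := by linarith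
  nlinarith [mul_nonneg hx hl'.le, mul_nonneg hy hl'.le, mul_nonneg hx hE, mul_nonneg hy hE,
    mul_nonneg hx (sub_nonneg.2 hy1), mul_nonneg hy (sub_nonneg.2 hx1),
    mul_nonneg (sub_nonneg.2 hx1) (sub_nonneg.2 hy1), mul_nonneg hE hl'.le,
    mul_nonneg hE (sub_nonneg.2 hx1), mul_nonneg hE (sub_nonneg.2 hy1)]

lemma cell_11_12 (x y E : ℚ) (hx : 0 ≤ x) (hx1 : x ≤ 1) (hy : 0 ≤ y) (hy1 : y ≤ 1) (hE : 0 ≤ E)
    (hX : 0 ≤ 13 - x - E) (hY : 0 ≤ 12 - y - E) (h : 128 < (13 - x - E) * (12 - y - E)) :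
    ((6653/125 : ℚ) + (1728/125 : ℚ) * x) * ((8381/125 : ℚ) + (144/25 : ℚ) * y) + E * (35831808/78125 : ℚ) < (410338673/78125 : ℚ) := by
  have hl := tangent hX hY h (P := (47/4 : ℚ)) (Q := (512/47 : ℚ)) (by norm_num) (by norm_num) (by norm_num)
  have hl' : 0 < (13 - x - E) * (512/47 : ℚ) + (12 - y - E) * (47/4 : ℚ) - 256 := by linarith
  nlinarith [mul_nonneg hx hl'.le, mul_nonneg hy hl'.le, mul_nonneg hx hE, mul_nonneg hy hE,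
    mul_nonneg hx (sub_nonneg.2 hy1), mul_nonneg hy (sub_nonneg.2 hx1),
    mul_nonneg (sub_nonneg.2 hx1) (sub_nonneg.2 hy1), mul_nonneg hE hl'.le,
    mul_nonneg hE (sub_nonneg.2 hx1), mul_nonneg hE (sub_nonneg.2 hy1)]

lemma cell_11_13 (x y E : ℚ) (hx : 0 ≤ x) (hx1 : x ≤ 1) (hy : 0 ≤ y) (hy1 : y ≤ 1) (hE : 0 ≤ E)
    (hX : 0 ≤ 13 - x - E) (hY : 0 ≤ 11 - y - E) (h : 128 < (13 - x - E) * (11 - y - E)) :
    ((6653/125 : ℚ) + (1728/125 : ℚ) * x) * ((9101/125 : ℚ) + (1728/125 : ℚ) * y) + E * (35831808/78125 : ℚ) < (410338673/78125 : ℚ) := by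
  have hl := tangent hX hY h (P := (12 : ℚ)) (Q := (32/3 : ℚ)) (by norm_num) (by norm_num) (by norm_num)
  have hl' : 0 < (13 - x - E) * (32/3 : ℚ) + (11 - y - E) * (12 : ℚ) - 256 := by linarith
  nlinarith [mul_nonneg hx hl'.le, mul_nonneg hy hl'.le, mul_nonneg hx hE, mul_nonneg hy hE,
    mul_nonneg hx (sub_nonneg.2 hy1), mul_nonneg hy (sub_nonneg.2 hx1),
    mul_nonneg (sub_nonneg.2 hx1) (sub_nonneg.2 hy1), mul_nonneg hE hl'.le,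
    mul_nonneg hE (sub_nonneg.2 hx1), mul_nonneg hE (sub_nonneg.2 hy1)]

lemma cell_11_14 (x y E : ℚ) (hx : 0 ≤ x) (hx1 : x ≤ 1) (hy : 0 ≤ y) (hy1 : y ≤ 1) (hE : 0 ≤ E)
    (hX : 0 ≤ 13 - x - E) (hY : 0 ≤ 10 - y - E) (h : 128 < (13 - x - E) * (10 - y - E)) :
    ((6653/125 : ℚ) + (1728/125 : ℚ) * x) * ((10829/125 : ℚ) + (1728/125 : ℚ) * y) + E * (35831808/78125 : ℚ) < (410338673/78125 : ℚ) := by
  have hl := tangent hX hY h (P := (51/4 : ℚ)) (Q := (512/51 : ℚ)) (by norm_num) (by norm_num) (by norm_num)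
  have hl' : 0 < (13 - x - E) * (512/51 : ℚ) + (10 - y - E) * (51/4 : ℚ) - 256 := by linarith
  nlinarith [mul_nonneg hx hl'.le, mul_nonneg hy hl'.le, mul_nonneg hx hE, mul_nonneg hy hE,
    mul_nonneg hx (sub_nonneg.2 hy1), mul_nonneg hy (sub_nonneg.2 hx1),
    mul_nonneg (sub_nonneg.2 hx1) (sub_nonneg.2 hy1), mul_nonneg hE hl'.le,
    mul_nonneg hE (sub_nonneg.2 hx1), mul_nonneg hE (sub_nonneg.2 hy1)]

lemma cell_12_12 (x y E : ℚ) (hx : 0 ≤ x) (hx1 : x ≤ 1) (hy : 0 ≤ y) (hy1 : y ≤ 1) (hE : 0 ≤ E)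
    (hX : 0 ≤ 12 - x - E) (hY : 0 ≤ 12 - y - E) (h : 128 < (12 - x - E) * (12 - y - E)) :
    ((8381/125 : ℚ) + (144/25 : ℚ) * x) * ((8381/125 : ℚ) + (144/25 : ℚ) * y) + E * (35831808/78125 : ℚ) < (410338673/78125 : ℚ) := by
  have hl := tangent hX hY h (P := (45/4 : ℚ)) (Q := (512/45 : ℚ)) (by norm_num) (by norm_num) (by norm_num)
  have hl' : 0 < (12 - x - E) * (512/45 : ℚ) + (12 - y - E) * (45/4 : ℚ) - 256 := by linarith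
  nlinarith [mul_nonneg hx hl'.le, mul_nonneg hy hl'.le, mul_nonneg hx hE, mul_nonneg hy hE,
    mul_nonneg hx (sub_nonneg.2 hy1), mul_nonneg hy (sub_nonneg.2 hx1),
    mul_nonneg (sub_nonneg.2 hx1) (sub_nonneg.2 hy1), mul_nonneg hE hl'.le,
    mul_nonneg hE (sub_nonneg.2 hx1), mul_nonneg hE (sub_nonneg.2 hy1)]

lemma cell_12_13 (x y E : ℚ) (hx : 0 ≤ x) (hx1 : x ≤ 1) (hy : 0 ≤ y) (hy1 : y ≤ 1) (hE : 0 ≤ E)
    (hX : 0 ≤ 12 - x - E) (hY : 0 ≤ 11 - y - E) (h : 128 < (12 - x - E) * (11 - y - E)) :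
    ((8381/125 : ℚ) + (144/25 : ℚ) * x) * ((9101/125 : ℚ) + (1728/125 : ℚ) * y) + E * (35831808/78125 : ℚ) < (410338673/78125 : ℚ) := by
  have hl := tangent hX hY h (P := (12 : ℚ)) (Q := (32/3 : ℚ)) (by norm_num) (by norm_num) (by norm_num)
  have hl' : 0 < (12 - x - E) * (32/3 : ℚ) + (11 - y - E) * (12 : ℚ) - 256 := by linarith
  nlinarith [mul_nonneg hx hl'.le, mul_nonneg hy hl'.le, mul_nonneg hx hE, mul_nonneg hy hE,
    mul_nonneg hx (sub_nonneg.2 hy1), mul_nonneg hy (sub_nonneg.2 hx1),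
    mul_nonneg (sub_nonneg.2 hx1) (sub_nonneg.2 hy1), mul_nonneg hE hl'.le,
    mul_nonneg hE (sub_nonneg.2 hx1), mul_nonneg hE (sub_nonneg.2 hy1)]

end Pool.Agent.Helper824_xs
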