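import Pool.Agent.Helper824_xs.Weights
import Pool.Agent.Helper824_xs.Cells

set_option autoImplicit false

/-! The numerical inequality for all `d`. -/

namespace Pool.Agent.Helper824_xs

lemma c_1 : c 1 = 12 / 5 := by
  have := c_two_mul_add_one 0
  simp only [mul_zero, zero_add] at this
  rw [this, c, s_zero]; norm_num

lemma c_2 : c 2 = (12/5 : ℚ) := by
  rw [show (2 : ℕ) = 2 * 1 from rfl, c_two_mul, c_1]

lemma c_3 : c 3 = (144/25 : ℚ) := by
  rw [show (3 : ℕ) = 2 * 1 + 1 from rfl, c_two_mul_add_one, c_1]; norm_num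

lemma c_4 : c 4 = (12/5 : ℚ) := by
  rw [show (4 : ℕ) = 2 * 2 from rfl, c_two_mul, c_2]

lemma c_5 : c 5 = (144/25 : ℚ) := by
  rw [show (5 : ℕ) = 2 * 2 + 1 from rfl, c_two_mul_add_one, c_2]; norm_num

lemma c_6 : c 6 = (144/25 : ℚ) := by
  rw [show (6 : ℕ) = 2 * 3 from rfl, c_two_mul, c_3]

lemma c_7 : c 7 = (1728/125 : ℚ) := by
  rw [show (7 : ℕ) = 2 * 3 + 1 from rfl, c_two_mul_add_one, c_3]; norm_num

lemma c_8 : c 8 = (12/5 : ℚ) := by
  rw [show (8 : ℕ) = 2 * 4 from rfl, c_two_mul, c_4]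

lemma c_9 : c 9 = (144/25 : ℚ) := by
  rw [show (9 : ℕ) = 2 * 4 + 1 from rfl, c_two_mul_add_one, c_4]; norm_num

lemma c_10 : c 10 = (144/25 : ℚ) := by
  rw [show (10 : ℕ) = 2 * 5 from rfl, c_two_mul, c_5]

lemma c_11 : c 11 = (1728/125 : ℚ) := by
  rw [show (11 : ℕ) = 2 * 5 + 1 from rfl, c_two_mul_add_one, c_5]; norm_num

lemma c_12 : c 12 = (144/25 : ℚ) := by
  rw [show (12 : ℕ) = 2 * 6 from rfl, c_two_mul, c_6]

lemma c_13 : c 13 = (1728/125 : ℚ) := by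
  rw [show (13 : ℕ) = 2 * 6 + 1 from rfl, c_two_mul_add_one, c_6]; norm_num

lemma c_14 : c 14 = (1728/125 : ℚ) := by
  rw [show (14 : ℕ) = 2 * 7 from rfl, c_two_mul, c_7]

lemma c_15 : c 15 = (20736/625 : ℚ) := by
  rw [show (15 : ℕ) = 2 * 7 + 1 from rfl, c_two_mul_add_one, c_7]; norm_num

lemma c_16 : c 16 = (12/5 : ℚ) := by
  rw [show (16 : ℕ) = 2 * 8 from rfl, c_two_mul, c_8]

lemma psi_2 : psi 2 = (17/5 : ℚ) := by
  rw [show (2 : ℕ) = 1 + 1 from rfl, psi_succ, psi_one, c_1]; norm_num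

lemma psi_3 : psi 3 = (29/5 : ℚ) := by
  rw [show (3 : ℕ) = 2 + 1 from rfl, psi_succ, psi_2, c_2]; norm_num

lemma psi_4 : psi 4 = (289/25 : ℚ) := by
  rw [show (4 : ℕ) = 3 + 1 from rfl, psi_succ, psi_3, c_3]; norm_num

lemma psi_5 : psi 5 = (349/25 : ℚ) := by
  rw [show (5 : ℕ) = 4 + 1 from rfl, psi_succ, psi_4, c_4]; norm_num

lemma psi_6 : psi 6 = (493/25 : ℚ) := by
  rw [show (6 : ℕ) = 5 + 1 from rfl, psi_succ, psi_5, c_5]; norm_num

lemma psi_7 : psi 7 = (637/25 : ℚ) := by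
  rw [show (7 : ℕ) = 6 + 1 from rfl, psi_succ, psi_6, c_6]; norm_num

lemma psi_8 : psi 8 = (4913/125 : ℚ) := by
  rw [show (8 : ℕ) = 7 + 1 from rfl, psi_succ, psi_7, c_7]; norm_num

lemma psi_9 : psi 9 = (5213/125 : ℚ) := by
  rw [show (9 : ℕ) = 8 + 1 from rfl, psi_succ, psi_8, c_8]; norm_num

lemma psi_10 : psi 10 = (5933/125 : ℚ) := by
  rw [show (10 : ℕ) = 9 + 1 from rfl, psi_succ, psi_9, c_9]; norm_num

lemma psi_11 : psi 11 = (6653/125 : ℚ) := by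
  rw [show (11 : ℕ) = 10 + 1 from rfl, psi_succ, psi_10, c_10]; norm_num

lemma psi_12 : psi 12 = (8381/125 : ℚ) := by
  rw [show (12 : ℕ) = 11 + 1 from rfl, psi_succ, psi_11, c_11]; norm_num

lemma psi_13 : psi 13 = (9101/125 : ℚ) := by
  rw [show (13 : ℕ) = 12 + 1 from rfl, psi_succ, psi_12, c_12]; norm_num

lemma psi_14 : psi 14 = (10829/125 : ℚ) := by
  rw [show (14 : ℕ) = 13 + 1 from rfl, psi_succ, psi_13, c_13]; norm_num

lemma psi_15 : psi 15 = (12557/125 : ℚ) := by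
  rw [show (15 : ℕ) = 14 + 1 from rfl, psi_succ, psi_14, c_14]; norm_num

lemma psi_16 : psi 16 = (83521/625 : ℚ) := by
  rw [show (16 : ℕ) = 15 + 1 from rfl, psi_succ, psi_15, c_15]; norm_num


/-- the inequality in all cells with `i ≤ j` -/
lemma cells (i j : ℕ) (hi : 8 ≤ i) (hj : j ≤ 15) (hij : i ≤ j) (x y E : ℚ) (hx : 0 ≤ x) (hx1 : x ≤ 1)
    (hy : 0 ≤ y) (hy1 : y ≤ 1) (hE : 0 ≤ E) (hX : 0 ≤ 24 - (i : ℚ) - x - E)
    (hY : 0 ≤ 24 - (j : ℚ) - y - E) (h : 128 < (24 - (i : ℚ) - x - E) * (24 - (j : ℚ) - y - E)) :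
    (psi i + c i * x) * (psi j + c j * y) + E * (35831808/78125 : ℚ) < (410338673/78125 : ℚ) := by
  have hinf : ¬ ((24 - (i : ℚ)) * (24 - (j : ℚ)) ≤ 128) := by
    intro hle
    have h1 : 24 - (i : ℚ) - x - E ≤ 24 - (i : ℚ) := by linarith
    have h2 : 24 - (j : ℚ) - y - E ≤ 24 - (j : ℚ) := by linarith
    have := mul_le_mul h1 h2 hY (by linarith)
    linarith
  have hi15 : i ≤ 15 := hij.trans hj
  interval_cases i <;> interval_cases j <;> norm_num at hinf <;> norm_num at hX hY h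
  · rw [psi_8, c_8]
    exact cell_8_8 x y E hx hx1 hy hy1 hE (by linarith) (by linarith) (by linarith)
  · rw [psi_8, psi_9, c_8, c_9]
    exact cell_8_9 x y E hx hx1 hy hy1 hE (by linarith) (by linarith) (by linarith)
  · rw [psi_8, psi_10, c_8, c_10]
    exact cell_8_10 x y E hx hx1 hy hy1 hE (by linarith) (by linarith) (by linarith)
  · rw [psi_8, psi_11, c_8, c_11]
    exact cell_8_11 x y E hx hx1 hy hy1 hE (by linarith) (by linarith) (by linarith)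
  · rw [psi_8, psi_12, c_8, c_12]
    exact cell_8_12 x y E hx hx1 hy hy1 hE (by linarith) (by linarith) (by linarith)
  · rw [psi_8, psi_13, c_8, c_13]
    exact cell_8_13 x y E hx hx1 hy hy1 hE (by linarith) (by linarith) (by linarith)
  · rw [psi_8, psi_14, c_8, c_14]
    exact cell_8_14 x y E hx hx1 hy hy1 hE (by linarith) (by linarith) (by linarith)
  · rw [psi_8, psi_15, c_8, c_15]
    exact cell_8_15 x y E hx hx1 hy hy1 hE (by linarith) (by linarith) (by linarith)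
  · rw [psi_9, c_9]
    exact cell_9_9 x y E hx hx1 hy hy1 hE (by linarith) (by linarith) (by linarith)
  · rw [psi_9, psi_10, c_9, c_10]
    exact cell_9_10 x y E hx hx1 hy hy1 hE (by linarith) (by linarith) (by linarith)
  · rw [psi_9, psi_11, c_9, c_11]
    exact cell_9_11 x y E hx hx1 hy hy1 hE (by linarith) (by linarith) (by linarith)
  · rw [psi_9, psi_12, c_9, c_12]
    exact cell_9_12 x y E hx hx1 hy hy1 hE (by linarith) (by linarith) (by linarith)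
  · rw [psi_9, psi_13, c_9, c_13]
    exact cell_9_13 x y E hx hx1 hy hy1 hE (by linarith) (by linarith) (by linarith)
  · rw [psi_9, psi_14, c_9, c_14]
    exact cell_9_14 x y E hx hx1 hy hy1 hE (by linarith) (by linarith) (by linarith)
  · rw [psi_9, psi_15, c_9, c_15]
    exact cell_9_15 x y E hx hx1 hy hy1 hE (by linarith) (by linarith) (by linarith)
  · rw [psi_10, c_10]
    exact cell_10_10 x y E hx hx1 hy hy1 hE (by linarith) (by linarith) (by linarith)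
  · rw [psi_10, psi_11, c_10, c_11]
    exact cell_10_11 x y E hx hx1 hy hy1 hE (by linarith) (by linarith) (by linarith)
  · rw [psi_10, psi_12, c_10, c_12]
    exact cell_10_12 x y E hx hx1 hy hy1 hE (by linarith) (by linarith) (by linarith)
  · rw [psi_10, psi_13, c_10, c_13]
    exact cell_10_13 x y E hx hx1 hy hy1 hE (by linarith) (by linarith) (by linarith)
  · rw [psi_10, psi_14, c_10, c_14]
    exact cell_10_14 x y E hx hx1 hy hy1 hE (by linarith) (by linarith) (by linarith)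
  · rw [psi_11, c_11]
    exact cell_11_11 x y E hx hx1 hy hy1 hE (by linarith) (by linarith) (by linarith)
  · rw [psi_11, psi_12, c_11, c_12]
    exact cell_11_12 x y E hx hx1 hy hy1 hE (by linarith) (by linarith) (by linarith)
  · rw [psi_11, psi_13, c_11, c_13]
    exact cell_11_13 x y E hx hx1 hy hy1 hE (by linarith) (by linarith) (by linarith)
  · rw [psi_11, psi_14, c_11, c_14]
    exact cell_11_14 x y E hx hx1 hy hy1 hE (by linarith) (by linarith) (by linarith)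
  · rw [psi_12, c_12]
    exact cell_12_12 x y E hx hx1 hy hy1 hE (by linarith) (by linarith) (by linarith)
  · rw [psi_12, psi_13, c_12, c_13]
    exact cell_12_13 x y E hx hx1 hy hy1 hE (by linarith) (by linarith) (by linarith)

lemma numeric_aux (k u w e : ℕ) (hu : 2 ^ (k + 3) ≤ u)
    (hw' : w < 2 ^ (k + 4)) (hle : u / 2 ^ k ≤ w / 2 ^ k)
    (hue : (u : ℚ) + e ≤ 3 * 2 ^ (k + 3)) (hwe : (w : ℚ) + e ≤ 3 * 2 ^ (k + 3))
    (h : (2 : ℚ) ^ (2 * (k + 3) + 1) < (3 * 2 ^ (k + 3) - u - e) * (3 * 2 ^ (k + 3) - w - e)) :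
    psi u * psi w + e * (12 / 5 : ℚ) ^ (2 * (k + 3) + 1) < (17 / 5 : ℚ) ^ (2 * (k + 3) + 1) := by
  have hK : 0 < 2 ^ k := by positivity
  have hKq : (0 : ℚ) < 2 ^ k := by positivity
  set i := u / 2 ^ k with hi
  set j := w / 2 ^ k with hj
  have hi8 : 8 ≤ i := by
    rw [hi, Nat.le_div_iff_mul_le hK]; rw [pow_add] at hu; omega
  have hj15 : j ≤ 15 := by
    have : j < 16 := by
      rw [hj, Nat.div_lt_iff_lt_mul hK]; rw [pow_add] at hw'; omega
    omega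
  have hu_eq : u = i * 2 ^ k + u % 2 ^ k := by
    rw [hi, mul_comm]; exact (Nat.div_add_mod u (2 ^ k)).symm
  have hw_eq : w = j * 2 ^ k + w % 2 ^ k := by
    rw [hj, mul_comm]; exact (Nat.div_add_mod w (2 ^ k)).symm
  set r := u % 2 ^ k with hr
  set r' := w % 2 ^ k with hr'
  have hrlt : r < 2 ^ k := Nat.mod_lt _ hK
  have hr'lt : r' < 2 ^ k := Nat.mod_lt _ hK
  have hcu := psi_chord k i r hrlt.le
  have hcw := psi_chord k j r' hr'lt.le
  rw [← hu_eq] at hcu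
  rw [← hw_eq] at hcw
  set x : ℚ := r / 2 ^ k with hx
  set y : ℚ := r' / 2 ^ k with hy
  set E : ℚ := e / 2 ^ k with hEdef
  have hxr : (r : ℚ) = x * 2 ^ k := by rw [hx]; field_simp
  have hyr : (r' : ℚ) = y * 2 ^ k := by rw [hy]; field_simp
  have hEr : (e : ℚ) = E * 2 ^ k := by rw [hEdef]; field_simp
  have hx0 : 0 ≤ x := by rw [hx]; positivity
  have hy0 : 0 ≤ y := by rw [hy]; positivity
  have hE0 : 0 ≤ E := by rw [hEdef]; positivity
  have hx1 : x ≤ 1 := by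
    rw [hx, div_le_one hKq]; exact_mod_cast hrlt.le
  have hy1 : y ≤ 1 := by
    rw [hy, div_le_one hKq]; exact_mod_cast hr'lt.le
  have huq : (u : ℚ) = (i + x) * 2 ^ k := by
    have : (u : ℚ) = i * 2 ^ k + r := by exact_mod_cast hu_eq
    rw [this, hxr]; ring
  have hwq : (w : ℚ) = (j + y) * 2 ^ k := by
    have : (w : ℚ) = j * 2 ^ k + r' := by exact_mod_cast hw_eq
    rw [this, hyr]; ring
  have hX : 0 ≤ 24 - (i : ℚ) - x - E := by
    rw [huq, hEr, pow_add] at hue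
    have : ((i : ℚ) + x + E) * 2 ^ k ≤ 24 * 2 ^ k := by linarith
    have := le_of_mul_le_mul_right this hKq
    linarith
  have hY : 0 ≤ 24 - (j : ℚ) - y - E := by
    rw [hwq, hEr, pow_add] at hwe
    have : ((j : ℚ) + y + E) * 2 ^ k ≤ 24 * 2 ^ k := by linarith
    have := le_of_mul_le_mul_right this hKq
    linarith
  have hXY : 128 < (24 - (i : ℚ) - x - E) * (24 - (j : ℚ) - y - E) := by
    rw [huq, hwq, hEr] at h
    have e1 : (2 : ℚ) ^ (2 * (k + 3) + 1) = 128 * (2 ^ k * 2 ^ k) := by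
      rw [show 2 * (k + 3) + 1 = k + k + 7 by ring, pow_add, pow_add]; norm_num; ring
    have e2 : (3 * (2 : ℚ) ^ (k + 3) - (i + x) * 2 ^ k - E * 2 ^ k)
        * (3 * 2 ^ (k + 3) - (j + y) * 2 ^ k - E * 2 ^ k)
        = ((24 - (i : ℚ) - x - E) * (24 - (j : ℚ) - y - E)) * (2 ^ k * 2 ^ k) := by
      rw [pow_add]; ring
    rw [e1, e2] at h
    exact lt_of_mul_lt_mul_right h (by positivity)
  have hcell := cells i j hi8 hj15 hle x y E hx0 hx1 hy0 hy1 hE0 hX hY hXY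
  have hcu' : psi u ≤ (17 / 5 : ℚ) ^ k * (psi i + c i * x) := by
    refine hcu.trans_eq ?_
    rw [hxr, show (17 / 5 : ℚ) ^ k = (17 / 10) ^ k * 2 ^ k by rw [← mul_pow]; norm_num]; ring
  have hcw' : psi w ≤ (17 / 5 : ℚ) ^ k * (psi j + c j * y) := by
    refine hcw.trans_eq ?_
    rw [hyr, show (17 / 5 : ℚ) ^ k = (17 / 10) ^ k * 2 ^ k by rw [← mul_pow]; norm_num]; ring
  have hprod : psi u * psi w
      ≤ ((17 / 5 : ℚ) ^ k * (psi i + c i * x)) * ((17 / 5 : ℚ) ^ k * (psi j + c j * y)) :=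
    mul_le_mul hcu' hcw' (psi_nonneg _) ((psi_nonneg _).trans hcu')
  have hEt : (e : ℚ) * (12 / 5 : ℚ) ^ (2 * (k + 3) + 1)
      ≤ ((17 / 5 : ℚ) ^ k * (17 / 5 : ℚ) ^ k) * (E * (12 / 5 : ℚ) ^ 7) := by
    have h1 : (2 : ℚ) ^ k * ((12 / 5 : ℚ) ^ k * (12 / 5 : ℚ) ^ k)
        ≤ (17 / 5 : ℚ) ^ k * (17 / 5 : ℚ) ^ k := by
      rw [← mul_pow, ← mul_pow, ← mul_pow]
      exact pow_le_pow_left₀ (by norm_num) (by norm_num) k
    have e3 : (e : ℚ) * (12 / 5 : ℚ) ^ (2 * (k + 3) + 1)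
        = (2 ^ k * ((12 / 5 : ℚ) ^ k * (12 / 5 : ℚ) ^ k)) * (E * (12 / 5 : ℚ) ^ 7) := by
      rw [hEr, show 2 * (k + 3) + 1 = k + k + 7 by ring, pow_add, pow_add]; ring
    rw [e3]
    exact mul_le_mul_of_nonneg_right h1 (by positivity)
  have e4 : (17 / 5 : ℚ) ^ (2 * (k + 3) + 1)
      = ((17 / 5 : ℚ) ^ k * (17 / 5 : ℚ) ^ k) * (17 / 5 : ℚ) ^ 7 := by
    rw [show 2 * (k + 3) + 1 = k + k + 7 by ring, pow_add, pow_add]
  rw [e4]
  calc psi u * psi w + e * (12 / 5 : ℚ) ^ (2 * (k + 3) + 1)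
      ≤ ((17 / 5 : ℚ) ^ k * (psi i + c i * x)) * ((17 / 5 : ℚ) ^ k * (psi j + c j * y))
        + ((17 / 5 : ℚ) ^ k * (17 / 5 : ℚ) ^ k) * (E * (12 / 5 : ℚ) ^ 7) := add_le_add hprod hEt
    _ = ((17 / 5 : ℚ) ^ k * (17 / 5 : ℚ) ^ k)
        * ((psi i + c i * x) * (psi j + c j * y) + E * (12 / 5 : ℚ) ^ 7) := by ring
    _ < ((17 / 5 : ℚ) ^ k * (17 / 5 : ℚ) ^ k) * (17 / 5 : ℚ) ^ 7 := by
        apply mul_lt_mul_of_pos_left _ (by positivity)
        norm_num at hcell ⊢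
        exact hcell

/-- The numerical inequality. -/
theorem numeric (d u w e : ℕ) (hd : 3 ≤ d) (hu : 2 ^ d ≤ u) (hu' : u < 2 ^ (d + 1))
    (hw : 2 ^ d ≤ w) (hw' : w < 2 ^ (d + 1)) (hue : (u : ℚ) + e ≤ 3 * 2 ^ d)
    (hwe : (w : ℚ) + e ≤ 3 * 2 ^ d)
    (h : (2 : ℚ) ^ (2 * d + 1) < (3 * 2 ^ d - u - e) * (3 * 2 ^ d - w - e)) :
    psi u * psi w + e * (12 / 5 : ℚ) ^ (2 * d + 1) < (17 / 5 : ℚ) ^ (2 * d + 1) := by
  obtain ⟨k, rfl⟩ : ∃ k, d = k + 3 := ⟨d - 3, by omega⟩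
  rcases le_total (u / 2 ^ k) (w / 2 ^ k) with hle | hle
  · exact numeric_aux k u w e hu hw' hle hue hwe h
  · rw [mul_comm (psi u)]
    exact numeric_aux k w u e hw hu' hle hwe hue (by rw [mul_comm (3 * 2 ^ (k + 3) - (w : ℚ) - e)]; exact h)

end Pool.Agent.Helper824_xs
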