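import Pool.Agent.Helper824_xs.Numeric

set_option autoImplicit false

/-! Upper bound for the number of intersections of a cross-Sperner pair. -/

namespace Pool.Agent.Helper824_xs

open Finset

variable {α : Type*} [Fintype α] [DecidableEq α]

/-- Two families are cross-Sperner if no member of one is contained in a member of the other. -/
def CrossSperner (𝒜 ℬ : Finset (Finset α)) : Prop :=
  ∀ A ∈ 𝒜, ∀ B ∈ ℬ, ¬ A ⊆ B ∧ ¬ B ⊆ A

/-- The family `{A ∩ B : A ∈ 𝒜, B ∈ ℬ}`. -/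
def inters (𝒜 ℬ : Finset (Finset α)) : Finset (Finset α) :=
  (𝒜 ×ˢ ℬ).image fun p => p.1 ∩ p.2

/-- upper closure -/
def up (𝒜 : Finset (Finset α)) : Finset (Finset α) := univ.filter fun S => ∃ A ∈ 𝒜, A ⊆ S

/-- weight -/
def g (S : Finset α) : ℚ := (12 / 5 : ℚ) ^ #Sᶜ

lemma g_pos (S : Finset α) : 0 < g S := by unfold g; positivity

lemma g_le (S : Finset α) : g S ≤ (12 / 5 : ℚ) ^ Fintype.card α :=
  pow_le_pow_right₀ (by norm_num) (card_le_univ _)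

lemma sum_g : ∑ S : Finset α, g S = (17 / 5 : ℚ) ^ Fintype.card α := by
  have := Fintype.sum_pow_mul_eq_add_pow α (1 : ℚ) (12 / 5)
  rw [show (1 : ℚ) + 12 / 5 = 17 / 5 by norm_num] at this
  rw [← this]
  refine sum_congr rfl fun S _ => ?_
  rw [g, card_compl, one_pow, one_mul]

lemma g_inter_le (A B : Finset α) : g (A ∩ B) ≤ g A * g B := by
  unfold g
  rw [← pow_add]
  refine pow_le_pow_right₀ (by norm_num) ?_
  rw [compl_inter]
  exact card_union_le _ _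

lemma sum_up_le (𝒜 : Finset (Finset α)) : ∑ S ∈ up 𝒜, g S ≤ psi #(up 𝒜) := by
  have hinj : Set.InjOn (fun S : Finset α => Sᶜ) (up 𝒜 : Set (Finset α)) :=
    fun S _ T _ h => compl_injective h
  have h1 : ∑ S ∈ up 𝒜, g S = ∑ D ∈ (up 𝒜).image (fun S => Sᶜ), (12 / 5 : ℚ) ^ #D := by
    rw [sum_image hinj]; rfl
  rw [h1, ← card_image_of_injOn hinj]
  apply weight_le univ
  · intro S T hTS hS
    simp only [mem_coe, mem_image, up, mem_filter, mem_univ, true_and] at hS ⊢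
    obtain ⟨R, ⟨A, hA, hAR⟩, rfl⟩ := hS
    refine ⟨Tᶜ, ⟨A, hA, hAR.trans ?_⟩, compl_compl T⟩
    intro x hx
    rw [mem_compl]
    intro hxT
    exact (mem_compl.1 (hTS hxT)) hx
  · intro D _; exact subset_univ _

lemma sum_inters_le (𝒜 ℬ : Finset (Finset α)) :
    ∑ S ∈ inters 𝒜 ℬ, g S ≤ (∑ A ∈ 𝒜, g A) * ∑ B ∈ ℬ, g B := by
  rw [sum_mul_sum, ← sum_product']
  calc ∑ S ∈ inters 𝒜 ℬ, g S ≤ ∑ p ∈ 𝒜 ×ˢ ℬ, g (p.1 ∩ p.2) :=
        sum_image_le_of_nonneg (fun p _ => (g_pos _).le)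
    _ ≤ ∑ p ∈ 𝒜 ×ˢ ℬ, g p.1 * g p.2 := sum_le_sum fun p _ => g_inter_le _ _

lemma up_mono_sub (𝒜 : Finset (Finset α)) : 𝒜 ⊆ up 𝒜 := fun A hA => by
  simp only [up, mem_filter, mem_univ, true_and]
  exact ⟨A, hA, Subset.rfl⟩

lemma sub_sdiff {𝒜 ℬ : Finset (Finset α)} (h : CrossSperner 𝒜 ℬ) :
    𝒜 ⊆ up 𝒜 \ (up 𝒜 ∩ up ℬ) := by
  intro A hA
  rw [mem_sdiff]
  refine ⟨up_mono_sub 𝒜 hA, fun h2 => ?_⟩
  have h3 := (mem_inter.1 h2).2
  simp only [up, mem_filter, mem_univ, true_and] at h3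
  obtain ⟨B, hB, hBA⟩ := h3
  exact (h A hA B hB).2 hBA

omit [Fintype α] [DecidableEq α] in
lemma CrossSperner.symm {𝒜 ℬ : Finset (Finset α)} (h : CrossSperner 𝒜 ℬ) : CrossSperner ℬ 𝒜 :=
  fun B hB A hA => ⟨(h A hA B hB).2, (h A hA B hB).1⟩

lemma disj {𝒜 ℬ : Finset (Finset α)} (h : CrossSperner 𝒜 ℬ) :
    Disjoint (inters 𝒜 ℬ) (up 𝒜 ∪ up ℬ) := by
  rw [disjoint_left]
  intro S hS hS2
  simp only [inters, mem_image, mem_product, Prod.exists] at hS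
  obtain ⟨A, B, ⟨hA, hB⟩, rfl⟩ := hS
  simp only [up, mem_union, mem_filter, mem_univ, true_and] at hS2
  rcases hS2 with ⟨A', hA', hle⟩ | ⟨B', hB', hle⟩
  · exact (h A' hA' B hB).1 (hle.trans inter_subset_right)
  · exact (h A hA B' hB').2 (hle.trans inter_subset_left)

/-- the weight inequality -/
lemma weight_ineq {𝒜 ℬ : Finset (Finset α)} (h : CrossSperner 𝒜 ℬ) (hA : 𝒜.Nonempty)
    (hB : ℬ.Nonempty) :
    (17 / 5 : ℚ) ^ Fintype.card α ≤ psi #(up 𝒜) * psi #(up ℬ)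
      + #(inters 𝒜 ℬ ∪ (up 𝒜 ∪ up ℬ))ᶜ * (12 / 5 : ℚ) ^ Fintype.card α := by
  set 𝒱 := up 𝒜 ∩ up ℬ with h𝒱
  set F := ∑ S ∈ up 𝒜, g S with hF
  set G := ∑ S ∈ up ℬ, g S with hG
  set V := ∑ S ∈ 𝒱, g S with hV
  have hFA : ∑ S ∈ 𝒜, g S ≤ F - V := by
    have h1 : ∑ S ∈ 𝒜, g S ≤ ∑ S ∈ up 𝒜 \ 𝒱, g S :=
      sum_le_sum_of_subset_of_nonneg (sub_sdiff h) fun S _ _ => (g_pos S).le
    have h2 : ∑ S ∈ up 𝒜 \ 𝒱, g S + V = F := sum_sdiff inter_subset_left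
    linarith
  have hGB : ∑ S ∈ ℬ, g S ≤ G - V := by
    have h1 : ∑ S ∈ ℬ, g S ≤ ∑ S ∈ up ℬ \ 𝒱, g S := by
      refine sum_le_sum_of_subset_of_nonneg ?_ fun S _ _ => (g_pos S).le
      rw [h𝒱, inter_comm]
      exact sub_sdiff h.symm
    have h2 : ∑ S ∈ up ℬ \ 𝒱, g S + V = G := sum_sdiff inter_subset_right
    linarith
  have hV1 : 1 ≤ V := by
    have hmem : (univ : Finset α) ∈ 𝒱 := by
      obtain ⟨A, hA⟩ := hA
      obtain ⟨B, hB⟩ := hB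
      simp only [h𝒱, up, mem_inter, mem_filter, mem_univ, true_and]
      exact ⟨⟨A, hA, subset_univ _⟩, ⟨B, hB, subset_univ _⟩⟩
    have h1 : g (univ : Finset α) ≤ V :=
      single_le_sum (f := fun S => g S) (fun S _ => (g_pos S).le) hmem
    have h2 : g (univ : Finset α) = 1 := by simp [g]
    linarith
  have hA0 : 0 ≤ ∑ S ∈ 𝒜, g S := sum_nonneg fun S _ => (g_pos S).le
  have hB0 : 0 ≤ ∑ S ∈ ℬ, g S := sum_nonneg fun S _ => (g_pos S).le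
  have hI : ∑ S ∈ inters 𝒜 ℬ, g S ≤ (F - V) * (G - V) :=
    (sum_inters_le 𝒜 ℬ).trans (mul_le_mul hFA hGB hB0 (hA0.trans hFA))
  have hun : ∑ S ∈ up 𝒜 ∪ up ℬ, g S = F + G - V := by
    have := sum_union_inter (s₁ := up 𝒜) (s₂ := up ℬ) (f := fun S => g S)
    linarith
  have hE : ∑ S ∈ (inters 𝒜 ℬ ∪ (up 𝒜 ∪ up ℬ))ᶜ, g S
      ≤ #(inters 𝒜 ℬ ∪ (up 𝒜 ∪ up ℬ))ᶜ * (12 / 5 : ℚ) ^ Fintype.card α := by
    rw [← nsmul_eq_mul]
    exact sum_le_card_nsmul _ _ _ fun S _ => g_le S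
  have htot : (17 / 5 : ℚ) ^ Fintype.card α = ∑ S ∈ inters 𝒜 ℬ, g S
      + ∑ S ∈ up 𝒜 ∪ up ℬ, g S + ∑ S ∈ (inters 𝒜 ℬ ∪ (up 𝒜 ∪ up ℬ))ᶜ, g S := by
    rw [← sum_g, ← sum_union (disj h), sum_add_sum_compl]
  have hFp := sum_up_le 𝒜
  have hGp := sum_up_le ℬ
  have hF0 : V ≤ F := by linarith
  have hG0 : V ≤ G := by linarith
  have hprod : F * G ≤ psi #(up 𝒜) * psi #(up ℬ) :=
    mul_le_mul hFp hGp (by linarith) (psi_nonneg _)
  have hfin : (F - V) * (G - V) + (F + G - V) ≤ F * G := by nlinarith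
  linarith

lemma card_ineq {𝒜 ℬ : Finset (Finset α)} (h : CrossSperner 𝒜 ℬ) :
    ∃ a b v e : ℕ, #(up 𝒜) = a + v ∧ #(up ℬ) = b + v ∧ #(inters 𝒜 ℬ) ≤ a * b
      ∧ #(inters 𝒜 ℬ ∪ (up 𝒜 ∪ up ℬ))ᶜ = e
      ∧ #(inters 𝒜 ℬ) + a + b + v + e = 2 ^ Fintype.card α
      ∧ (𝒜.Nonempty → ℬ.Nonempty → 1 ≤ v) := by
  refine ⟨#(up 𝒜 \ (up 𝒜 ∩ up ℬ)), #(up ℬ \ (up 𝒜 ∩ up ℬ)), #(up 𝒜 ∩ up ℬ), _,
    (card_sdiff_add_card_eq_card inter_subset_left).symm,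
    (card_sdiff_add_card_eq_card inter_subset_right).symm, ?_, rfl, ?_, ?_⟩
  · calc #(inters 𝒜 ℬ) ≤ #(𝒜 ×ˢ ℬ) := card_image_le
      _ = #𝒜 * #ℬ := card_product _ _
      _ ≤ _ := Nat.mul_le_mul (card_le_card (sub_sdiff h))
          (card_le_card (by rw [inter_comm]; exact sub_sdiff h.symm))
  · have h1 : #(inters 𝒜 ℬ ∪ (up 𝒜 ∪ up ℬ)) + #(inters 𝒜 ℬ ∪ (up 𝒜 ∪ up ℬ))ᶜ
        = 2 ^ Fintype.card α := by
      rw [card_add_card_compl, Fintype.card_finset]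
    rw [card_union_of_disjoint (disj h)] at h1
    have h2 := card_union_add_card_inter (up 𝒜) (up ℬ)
    have h3 : #(up 𝒜 \ (up 𝒜 ∩ up ℬ)) + #(up 𝒜 ∩ up ℬ) = #(up 𝒜) :=
      card_sdiff_add_card_eq_card inter_subset_left
    have h4 : #(up ℬ \ (up 𝒜 ∩ up ℬ)) + #(up 𝒜 ∩ up ℬ) = #(up ℬ) :=
      card_sdiff_add_card_eq_card inter_subset_right
    omega
  · rintro ⟨A, hA⟩ ⟨B, hB⟩
    rw [Nat.one_le_iff_ne_zero, ← Nat.pos_iff_ne_zero, card_pos]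
    refine ⟨univ, ?_⟩
    simp only [up, mem_inter, mem_filter, mem_univ, true_and]
    exact ⟨⟨A, hA, subset_univ _⟩, ⟨B, hB, subset_univ _⟩⟩

/-- arithmetic: both families are large -/
lemma big (D a b s : ℕ) (_hD : 1 ≤ D) (h1 : 2 * D ^ 2 ≤ (a + 1) * (b + 1) + s)
    (h2 : (a + 1) + (b + 1) + s + 1 ≤ 3 * D) : D < a + 1 := by
  by_contra hcon
  push Not at hcon
  have h3 : (a + 1) * ((a + 1) + (b + 1) + s + 1) ≤ (a + 1) * (3 * D) := Nat.mul_le_mul_left _ h2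
  zify at *
  nlinarith [mul_nonneg (sub_nonneg.2 hcon) (by linarith : (0 : ℤ) ≤ 2 * D - (a + 1)),
    mul_nonneg (by positivity : (0 : ℤ) ≤ a) (by positivity : (0 : ℤ) ≤ s)]

theorem upper (d : ℕ) (hα : Fintype.card α = 2 * d + 1) {𝒜 ℬ : Finset (Finset α)}
    (h : CrossSperner 𝒜 ℬ) : #(inters 𝒜 ℬ) + 3 * 2 ^ d ≤ 2 ^ (2 * d + 1) + 1 := by
  have hpow : (2 : ℕ) ^ (2 * d + 1) = 2 * (2 ^ d) ^ 2 := by
    rw [pow_succ, ← pow_mul, mul_comm d 2]; ring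
  have hD : 1 ≤ 2 ^ d := Nat.one_le_two_pow
  by_cases hA : 𝒜.Nonempty
  swap
  · rw [not_nonempty_iff_eq_empty] at hA
    have : #(inters 𝒜 ℬ) = 0 := by rw [hA]; simp [inters]
    rw [this, hpow]
    nlinarith
  by_cases hB : ℬ.Nonempty
  swap
  · rw [not_nonempty_iff_eq_empty] at hB
    have : #(inters 𝒜 ℬ) = 0 := by rw [hB]; simp [inters]
    rw [this, hpow]
    nlinarith
  by_contra hcon
  push Not at hcon
  obtain ⟨a, b, v, e, hu, hw, hN, he, htot, hv⟩ := card_ineq h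
  have hv1 := hv hA hB
  obtain ⟨v', rfl⟩ : ∃ v', v = v' + 1 := ⟨v - 1, by omega⟩
  have hwt := weight_ineq h hA hB
  rw [hu, hw, he, hα] at hwt
  rw [hα] at htot
  set D := 2 ^ d with hDdef
  rw [hpow] at hcon htot
  have h1 : 2 * D ^ 2 ≤ (a + 1) * (b + 1) + (v' + e) := by nlinarith
  have h2 : (a + 1) + (b + 1) + (v' + e) + 1 ≤ 3 * D := by omega
  have ha : D < a + 1 := big D a b (v' + e) hD h1 h2
  have hb : D < b + 1 := by
    refine big D b a (v' + e) hD ?_ ?_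
    · rw [mul_comm (b + 1)]; exact h1
    · omega
  have hd3 : 3 ≤ d := by
    by_contra hlt
    have hcases : d = 0 ∨ d = 1 ∨ d = 2 := by omega
    rcases hcases with rfl | rfl | rfl
    · simp at hDdef; omega
    · simp at hDdef; omega
    · have hD4 : D = 4 := by rw [hDdef]; norm_num
      rw [hD4] at h1 h2 ha hb
      have ha' : a ≤ 6 := by omega
      have hb' : b ≤ 6 := by omega
      interval_cases a <;> interval_cases b <;> omega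
  have hlt := numeric d (a + (v' + 1)) (b + (v' + 1)) e hd3 (by omega)
    (by rw [pow_succ]; omega) (by omega) (by rw [pow_succ]; omega)
    (by
      have : a + (v' + 1) + e ≤ 3 * D := by omega
      rw [hDdef] at this
      exact_mod_cast this)
    (by
      have : b + (v' + 1) + e ≤ 3 * D := by omega
      rw [hDdef] at this
      exact_mod_cast this)
    (by
      have e1 : (2 : ℚ) ^ (2 * d + 1) = 2 * (D : ℚ) ^ 2 := by
        rw [hDdef]; exact_mod_cast hpow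
      have e2 : (2 : ℚ) ^ d = (D : ℚ) := by rw [hDdef]; push_cast; rfl
      rw [e1, e2]
      have hX : ((b : ℚ) + 2) ≤ 3 * D - (a + (v' + 1) : ℕ) - e := by
        have : (b + 2) + (a + (v' + 1)) + e ≤ 3 * D := by omega
        have h' : (((b + 2) + (a + (v' + 1)) + e : ℕ) : ℚ) ≤ ((3 * D : ℕ) : ℚ) := by
          exact_mod_cast this
        push_cast at h' ⊢
        linarith
      have hY : ((a : ℚ) + 2) ≤ 3 * D - (b + (v' + 1) : ℕ) - e := by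
        have : (a + 2) + (b + (v' + 1)) + e ≤ 3 * D := by omega
        have h' : (((a + 2) + (b + (v' + 1)) + e : ℕ) : ℚ) ≤ ((3 * D : ℕ) : ℚ) := by
          exact_mod_cast this
        push_cast at h' ⊢
        linarith
      have hXY := mul_le_mul hX hY (by positivity) ((by positivity : (0 : ℚ) ≤ (b : ℚ) + 2).trans hX)
      refine lt_of_lt_of_le ?_ hXY
      have hq : 2 * D ^ 2 < (b + 2) * (a + 2) := by nlinarith
      exact_mod_cast hq)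
  exact absurd (lt_of_le_of_lt hwt hlt) (lt_irrefl _)

end Pool.Agent.Helper824_xs
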