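import Mathlib

set_option autoImplicit false

/-!
# Weights of lower sets

`s k` is the number of ones in the binary expansion of `k`, `c k = (12/5)^(s k)` and
`psi k = ∑ i < k, c i`. A lower set with `u` members satisfies `∑ (12/5)^|D| ≤ psi u`.
-/

namespace Pool.Agent.Helper824_xs

open Finset

/-- number of ones in the binary expansion -/
def s : ℕ → ℕ
  | 0 => 0
  | (n + 1) => s ((n + 1) / 2) + (n + 1) % 2
decreasing_by omega

lemma s_zero : s 0 = 0 := by rw [s]

lemma s_two_mul (n : ℕ) : s (2 * n) = s n := by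
  rcases n with _ | n
  · rfl
  · have h : 2 * (n + 1) = (2 * n + 1) + 1 := by ring
    rw [h, s]
    have h1 : (2 * n + 1 + 1) / 2 = n + 1 := by omega
    have h2 : (2 * n + 1 + 1) % 2 = 0 := by omega
    rw [h1, h2, add_zero]

lemma s_two_mul_add_one (n : ℕ) : s (2 * n + 1) = s n + 1 := by
  rw [s]
  have h1 : (2 * n + 1) / 2 = n := by omega
  have h2 : (2 * n + 1) % 2 = 1 := by omega
  rw [h1, h2]

lemma s_succ_le (n : ℕ) : s (n + 1) ≤ s n + 1 := by
  induction n using Nat.strong_induction_on with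
  | _ n ih =>
    rcases Nat.even_or_odd' n with ⟨m, rfl | rfl⟩
    · rw [s_two_mul_add_one, s_two_mul]
    · have h : 2 * m + 1 + 1 = 2 * (m + 1) := by ring
      rw [h, s_two_mul, s_two_mul_add_one]
      have := ih m (by omega)
      omega

/-- the weight `t ^ s k` with `t = 12/5` -/
def c (k : ℕ) : ℚ := (12 / 5 : ℚ) ^ s k

/-- partial sums of the weights -/
def psi (k : ℕ) : ℚ := ∑ i ∈ range k, c i

lemma c_two_mul (n : ℕ) : c (2 * n) = c n := by rw [c, s_two_mul, c]

lemma c_two_mul_add_one (n : ℕ) : c (2 * n + 1) = 12 / 5 * c n := by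
  rw [c, s_two_mul_add_one, c, pow_succ]; ring

lemma c_pos (n : ℕ) : 0 < c n := by unfold c; positivity

lemma c_succ_le (n : ℕ) : c (n + 1) ≤ 12 / 5 * c n := by
  unfold c
  calc (12 / 5 : ℚ) ^ s (n + 1) ≤ (12 / 5 : ℚ) ^ (s n + 1) :=
        pow_le_pow_right₀ (by norm_num) (s_succ_le n)
    _ = 12 / 5 * (12 / 5 : ℚ) ^ s n := by rw [pow_succ]; ring

lemma psi_zero : psi 0 = 0 := by simp [psi]

lemma psi_succ (n : ℕ) : psi (n + 1) = psi n + c n := by
  rw [psi, sum_range_succ, ← psi]

lemma psi_one : psi 1 = 1 := by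
  rw [psi_succ, psi_zero, c, s_zero]; norm_num

lemma psi_nonneg (n : ℕ) : 0 ≤ psi n := sum_nonneg fun i _ => (c_pos i).le

lemma psi_mono {m n : ℕ} (h : m ≤ n) : psi m ≤ psi n :=
  sum_le_sum_of_subset_of_nonneg (range_subset_range.2 h) fun i _ _ => (c_pos i).le

lemma psi_two_mul (n : ℕ) : psi (2 * n) = 17 / 5 * psi n := by
  induction n with
  | zero => simp [psi_zero]
  | succ n ih =>
    have h : 2 * (n + 1) = 2 * n + 1 + 1 := by ring
    rw [h, psi_succ, psi_succ, ih, c_two_mul, c_two_mul_add_one, psi_succ]; ring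

lemma psi_two_mul_add_one (n : ℕ) : psi (2 * n + 1) = psi (n + 1) + 12 / 5 * psi n := by
  rw [psi_succ, psi_two_mul, c_two_mul, psi_succ]; ring

/-- the key superadditivity -/
lemma psi_add (N : ℕ) : ∀ u₀ u₁ : ℕ, u₀ + u₁ ≤ N → u₁ ≤ u₀ →
    psi u₀ + 12 / 5 * psi u₁ ≤ psi (u₀ + u₁) := by
  induction N using Nat.strong_induction_on with
  | _ N ih =>
    intro u₀ u₁ hN h
    rcases Nat.eq_zero_or_pos u₁ with rfl | hpos
    · simp [psi_zero]
    by_cases hsmall : u₀ = 1
    · have h1 : u₁ = 1 := by omega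
      subst hsmall; subst h1
      have : psi (1 + 1) = psi 1 + c 1 := psi_succ 1
      rw [this]
      have h2 : c 1 = 12 / 5 := by
        have := c_two_mul_add_one 0
        simp only [mul_zero, zero_add] at this
        rw [this, c, s_zero]; norm_num
      rw [h2, psi_one]; norm_num
    have h2 : 2 ≤ u₀ := by omega
    rcases Nat.even_or_odd' u₀ with ⟨a, rfl | rfl⟩ <;> rcases Nat.even_or_odd' u₁ with ⟨b, rfl | rfl⟩
    · have e : 2 * a + 2 * b = 2 * (a + b) := by ring
      rw [e, psi_two_mul, psi_two_mul, psi_two_mul]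
      have := ih (a + b) (by omega) a b le_rfl (by omega)
      linarith
    · have e : 2 * a + (2 * b + 1) = 2 * (a + b) + 1 := by ring
      rw [e, psi_two_mul, psi_two_mul_add_one, psi_two_mul_add_one]
      have h3 := ih (a + b) (by omega) a b le_rfl (by omega)
      have h4 := ih (a + (b + 1)) (by omega) a (b + 1) le_rfl (by omega)
      have e2 : a + (b + 1) = a + b + 1 := by ring
      rw [e2] at h4
      linarith
    · have e : 2 * a + 1 + 2 * b = 2 * (a + b) + 1 := by ring
      rw [e, psi_two_mul, psi_two_mul_add_one, psi_two_mul_add_one]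
      have h3 := ih (a + b) (by omega) a b le_rfl (by omega)
      have h4 := ih (a + 1 + b) (by omega) (a + 1) b le_rfl (by omega)
      have e2 : a + 1 + b = a + b + 1 := by ring
      rw [e2] at h4
      linarith
    · have e : 2 * a + 1 + (2 * b + 1) = 2 * (a + b + 1) := by ring
      rw [e, psi_two_mul, psi_two_mul_add_one, psi_two_mul_add_one]
      have h3 := ih (a + b) (by omega) a b le_rfl (by omega)
      have h4 := ih (a + 1 + (b + 1)) (by omega) (a + 1) (b + 1) le_rfl (by omega)
      have e2 : a + 1 + (b + 1) = a + b + 1 + 1 := by ring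
      rw [e2, psi_succ (a + b + 1)] at h4
      have h5 : psi (a + b + 1) = psi (a + b) + c (a + b) := psi_succ (a + b)
      have h6 := c_succ_le (a + b)
      linarith

/-- weight bound for lower sets -/
theorem weight_le {α : Type*} [DecidableEq α] (S : Finset α) :
    ∀ 𝒟 : Finset (Finset α), IsLowerSet (𝒟 : Set (Finset α)) → (∀ D ∈ 𝒟, D ⊆ S) →
      ∑ D ∈ 𝒟, (12 / 5 : ℚ) ^ #D ≤ psi #𝒟 := by
  induction S using Finset.induction with
  | empty =>
    intro 𝒟 _ h
    rcases 𝒟.eq_empty_or_nonempty with rfl | hne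
    · simp [psi_zero]
    · have : 𝒟 = {∅} := by
        ext D
        simp only [mem_singleton]
        constructor
        · intro hD
          exact subset_empty.1 (h D hD)
        · rintro rfl
          obtain ⟨E, hE⟩ := hne
          have := subset_empty.1 (h E hE)
          rwa [this] at hE
      rw [this]
      simp [psi_one]
  | insert a S ha ih =>
    intro 𝒟 hlow h
    have hsplit : ∑ D ∈ 𝒟, (12 / 5 : ℚ) ^ #D
        = ∑ D ∈ 𝒟.nonMemberSubfamily a, (12 / 5 : ℚ) ^ #D
          + 12 / 5 * ∑ D ∈ 𝒟.memberSubfamily a, (12 / 5 : ℚ) ^ #D := by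
      have h1 : ∑ D ∈ 𝒟, (12 / 5 : ℚ) ^ #D
          = ∑ D ∈ 𝒟.filter (fun D => a ∉ D), (12 / 5 : ℚ) ^ #D
            + ∑ D ∈ 𝒟.filter (fun D => ¬ (a ∉ D)), (12 / 5 : ℚ) ^ #D :=
        (sum_filter_add_sum_filter_not _ _ _).symm
      rw [h1]
      congr 1
      have h2 : 𝒟.filter (fun D => ¬ (a ∉ D)) = (𝒟.memberSubfamily a).image (insert a) := by
        rw [image_insert_memberSubfamily]
        ext D; simp
      rw [h2, sum_image, mul_sum]
      · refine sum_congr rfl fun D hD => ?_
        rw [mem_memberSubfamily] at hD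
        rw [card_insert_of_notMem hD.2, pow_succ]; ring
      · intro D hD E hE hDE
        simp only [mem_coe, mem_memberSubfamily] at hD hE
        have := congrArg (fun X => X.erase a) hDE
        simpa [erase_insert hD.2, erase_insert hE.2] using this
    rw [hsplit]
    have h0 : ∀ D ∈ 𝒟.nonMemberSubfamily a, D ⊆ S := by
      intro D hD
      rw [mem_nonMemberSubfamily] at hD
      exact (subset_insert_iff_of_notMem hD.2).1 (h _ hD.1)
    have h1 : ∀ D ∈ 𝒟.memberSubfamily a, D ⊆ S := by
      intro D hD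
      rw [mem_memberSubfamily] at hD
      exact (subset_insert_iff_of_notMem hD.2).1 ((subset_insert _ _).trans <| h _ hD.1)
    have hb0 := ih _ hlow.nonMemberSubfamily h0
    have hb1 := ih _ hlow.memberSubfamily h1
    have hle : #(𝒟.memberSubfamily a) ≤ #(𝒟.nonMemberSubfamily a) :=
      card_le_card hlow.memberSubfamily_subset_nonMemberSubfamily
    have hcard := card_memberSubfamily_add_card_nonMemberSubfamily a 𝒟
    have hkey := psi_add _ _ _ le_rfl hle
    rw [add_comm] at hcard
    rw [hcard] at hkey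
    linarith

/-- chord bound -/
lemma psi_chord (k : ℕ) : ∀ i r : ℕ, r ≤ 2 ^ k →
    psi (i * 2 ^ k + r) ≤ (17 / 5 : ℚ) ^ k * psi i + c i * r * (17 / 10 : ℚ) ^ k := by
  induction k with
  | zero =>
    intro i r hr
    have : r = 0 ∨ r = 1 := by simp at hr; omega
    rcases this with rfl | rfl
    · simp
    · simp [psi_succ]
  | succ k ih =>
    intro i r hr
    have hc := c_pos i
    have hp : (0 : ℚ) < (17 / 10 : ℚ) ^ k := by positivity
    rcases Nat.even_or_odd' r with ⟨m, rfl | rfl⟩
    · have e : i * 2 ^ (k + 1) + 2 * m = 2 * (i * 2 ^ k + m) := by rw [pow_succ]; ring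
      rw [e, psi_two_mul]
      have := ih i m (by rw [pow_succ] at hr; omega)
      calc 17 / 5 * psi (i * 2 ^ k + m)
          ≤ 17 / 5 * ((17 / 5 : ℚ) ^ k * psi i + c i * m * (17 / 10 : ℚ) ^ k) := by gcongr
        _ = _ := by rw [pow_succ, pow_succ]; push_cast; ring
    · have e : i * 2 ^ (k + 1) + (2 * m + 1) = 2 * (i * 2 ^ k + m) + 1 := by rw [pow_succ]; ring
      rw [e, psi_two_mul_add_one]
      have hm : m + 1 ≤ 2 ^ k := by rw [pow_succ] at hr; omega
      have h1 := ih i m (by omega)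
      have h2 := ih i (m + 1) hm
      have e2 : i * 2 ^ k + (m + 1) = i * 2 ^ k + m + 1 := by ring
      rw [e2] at h2
      have h3 : psi (i * 2 ^ k + m + 1) + 12 / 5 * psi (i * 2 ^ k + m)
          ≤ ((17 / 5 : ℚ) ^ k * psi i + c i * (m + 1 : ℕ) * (17 / 10 : ℚ) ^ k)
            + 12 / 5 * ((17 / 5 : ℚ) ^ k * psi i + c i * m * (17 / 10 : ℚ) ^ k) := by linarith
      refine h3.trans ?_
      rw [pow_succ, pow_succ]
      push_cast
      nlinarith [mul_pos hc hp]

end Pool.Agent.Helper824_xs
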